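import Pool.Agent.helper49.V.Circ
import Pool.Agent.helper14.V.Cnt
import Pool.Agent.helper4.PB.Nat

/-!
# The descent theorem at all scales
-/

namespace Pool.Agent.helper49.V

open Finset Pool.Agent.helper49.Pow Pool.Agent.helper41.Coll

theorem exists_PB : ∃ C : ℝ, 0 < C ∧ PB C := by
  classical
  obtain ⟨C, hC, H⟩ := Pool.Agent.helper4.PB.pb
  refine ⟨C, hC, fun X z i0 Y S h1 h2 h3 h4 hS => le_trans ?_ (H X z i0 Y h1 h2 h3 h4)⟩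
  have h5 : S ⊆ (range (X + 1)).filter (fun n : ℕ => ∃ j, T^[j] n = z ∧
      (∀ i, i < j → Y ≤ ((T^[i] n : ℕ) : ℝ)) ∧
      (∀ i, i0 ≤ i → i ≤ j → 49 * i ≤ 100 * od i (T^[j - i] n) ∧
        100 * od i (T^[j - i] n) ≤ 51 * i)) := by
    intro n hn
    obtain ⟨h6, h7⟩ := hS n hn
    exact mem_filter.2 ⟨mem_range.2 h6, h7⟩
  exact_mod_cast card_le_card h5

/-- **Theorem V.** -/
theorem theoremV {K : ℝ} (hK : 1 / Real.log (16 / 9) < K) :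
    ∃ c C0 : ℝ, 0 < c ∧ 0 < C0 ∧ ∀ (X : ℕ) (Z : ℝ), 0 < Z →
      ((Nat.card {n : ℕ // 1 ≤ n ∧ n ≤ X ∧ ¬ ∃ j : ℕ, (j : ℝ) ≤ 4 * K * Real.log n ∧
        ((f^[j] n : ℕ) : ℝ) < Z ∧
        ∀ C : ℕ, HasC n C → ∃ C' : ℕ, HasC (f^[j] n) C' ∧ (C : ℝ) ≤ K * Real.log n + C'} : ℕ) : ℝ) ≤
        C0 * X * Z ^ (-c) := by
  obtain ⟨C, hC, hPB⟩ := exists_PB
  exact descentV hC hPB (fun ε hε => Pool.Agent.helper14.V.card_BadV hε) hK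

end Pool.Agent.helper49.V
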