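import Pool.Agent.helper49.V.Final
import Pool.Agent.helper49.Pow.Circ

/-!
# The number of circuits along the descent, at all scales
-/

namespace Pool.Agent.helper49.V

open Finset Pool.Agent.helper49.Pow Pool.Agent.helper41.Coll Pool.Agent.helper14.EX1
  Pool.Agent.helper49.Dich

theorem descentV {C : ℝ} (hC : 0 < C) (hPB : PB C)
    (hbad : ∀ ε : ℝ, 0 < ε → ∃ q : ℝ, 0 < q ∧ q < 1 ∧ ∀ k : ℕ,
      ((BadV ε k).card : ℝ) ≤ 8 * (k + 1) * (2 * q) ^ k)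
    {K : ℝ} (hK : 1 / Real.log (16 / 9) < K) :
    ∃ c C0 : ℝ, 0 < c ∧ 0 < C0 ∧ ∀ (X : ℕ) (Z : ℝ), 0 < Z →
      ((Nat.card {n : ℕ // 1 ≤ n ∧ n ≤ X ∧ ¬ ∃ j : ℕ, (j : ℝ) ≤ 4 * K * Real.log n ∧
        ((f^[j] n : ℕ) : ℝ) < Z ∧
        ∀ C : ℕ, HasC n C → ∃ C' : ℕ, HasC (f^[j] n) C' ∧ (C : ℝ) ≤ K * Real.log n + C'} : ℕ) : ℝ) ≤
        C0 * X * Z ^ (-c) := by
  classical
  obtain ⟨c, C0, hc, hC0, H⟩ := finalV hC hPB hbad hK
  refine ⟨c, C0, hc, hC0, fun X Z hZ => ?_⟩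
  rcases Nat.eq_zero_or_pos X with hX | hX
  · have h1 : IsEmpty {n : ℕ // 1 ≤ n ∧ n ≤ X ∧ ¬ ∃ j : ℕ, (j : ℝ) ≤ 4 * K * Real.log n ∧
        ((f^[j] n : ℕ) : ℝ) < Z ∧
        ∀ C : ℕ, HasC n C → ∃ C' : ℕ, HasC (f^[j] n) C' ∧ (C : ℝ) ≤ K * Real.log n + C'} :=
      ⟨fun n => by
        obtain ⟨n, h2, h3, -⟩ := n
        omega⟩
    rw [Nat.card_of_isEmpty, CharP.cast_eq_zero]
    have : 0 < Z ^ (-c) := Real.rpow_pos_of_pos hZ _
    positivity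
  · refine le_trans ?_ (H X Z hX hZ)
    have h1 : Nat.card {n : ℕ // 1 ≤ n ∧ n ≤ X ∧ ¬ ∃ j : ℕ, (j : ℝ) ≤ 4 * K * Real.log n ∧
        ((f^[j] n : ℕ) : ℝ) < Z ∧
        ∀ C : ℕ, HasC n C → ∃ C' : ℕ, HasC (f^[j] n) C' ∧ (C : ℝ) ≤ K * Real.log n + C'} ≤
        (EZ K X Z).card := by
      rw [← Nat.card_eq_finsetCard]
      refine Nat.card_le_card_of_injective (fun n => ⟨n.1, ?_⟩) ?_
      · obtain ⟨n, h1, h2, h3⟩ := n
        show n ∈ EZ K X Z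
        unfold EZ
        rw [mem_filter, mem_range]
        refine ⟨by omega, fun h => h3 ?_⟩
        obtain ⟨j, h4, h5, h6, h7⟩ := h
        refine ⟨j, by linarith, ?_, fun C hC => ?_⟩
        · rw [iter_eq j n h5]
          exact h4
        · obtain ⟨C', hC', e⟩ := hasC_split h5 hC
          refine ⟨C', hC', ?_⟩
          rw [e]
          push_cast
          linarith
      · intro a b h
        have := congrArg Subtype.val h
        exact Subtype.ext this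
    exact_mod_cast h1

end Pool.Agent.helper49.V
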