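import Pool.Agent.helper49.Pow.Iter

/-!
# Descent at all scales: definitions
-/

namespace Pool.Agent.helper49.V

open Finset Pool.Agent.helper49.Pow

/-- The pointwise bound with the constant `C`: few integers `n ≤ X` come to `z` by a path above `Y` all of whose final
pieces of length at least `i0` are typical. -/
def PB (C : ℝ) : Prop := ∀ (X z i0 : ℕ) (Y : ℝ) (S : Finset ℕ), 1 ≤ i0 → 1 ≤ Y → Y ≤ X + 1 →
  (z : ℝ) ≤ Y → (∀ n ∈ S, n < X + 1 ∧ ∃ j : ℕ, T^[j] n = z ∧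
    (∀ i < j, Y ≤ ((T^[i] n : ℕ) : ℝ)) ∧
    (∀ i, i0 ≤ i → i ≤ j → 49 * i ≤ 100 * od i (T^[j - i] n) ∧ 100 * od i (T^[j - i] n) ≤ 51 * i)) →
    (S.card : ℝ) ≤ C * i0 ^ 2 * (X + 1) / Y

open Classical in
/-- The bad integers below `2 ^ (k + 1)`. -/
noncomputable def BadV (ε : ℝ) (k : ℕ) : Finset ℕ :=
  (range (2 ^ (k + 1))).filter (fun n =>
    (∃ l ≤ k, (l : ℝ) / 2 + ε * k < od l n ∨ (od l n : ℝ) < (l : ℝ) / 2 - ε * k) ∨
    (1 / 4 + ε) * k < trw (word k n))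

/-- `n` comes below `Y` in a typical way, and every final piece of the path is typical. -/
def GdV (b κ : ℝ) (X : ℕ) (Y : ℝ) (n : ℕ) : Prop :=
  ∃ j : ℕ, ((T^[j] n : ℕ) : ℝ) < Y ∧ (∀ i < j, Y ≤ ((T^[i] n : ℕ) : ℝ)) ∧
    (j : ℝ) ≤ b * (Real.log (X + 1) - Real.log Y) ∧
    (tr j n : ℝ) ≤ κ * (b * (Real.log (X + 1) - Real.log Y)) ∧
    ∀ i ≤ j, |(od i (T^[j - i] n) : ℝ) - i / 2| ≤ 1 / 200 * i + 1 / 800 * Real.log Y

open Classical in
/-- The number of the `n ≤ X` which do not. -/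
noncomputable def NV (b κ : ℝ) (X : ℕ) (Y : ℝ) : ℕ :=
  ((range (X + 1)).filter (fun n => ¬ GdV b κ X Y n)).card

end Pool.Agent.helper49.V
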