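import Pool.Agent.helper49.V.Iter
import Pool.Agent.helper49.Pow.Final

/-!
# Descent at all scales, final form
-/

namespace Pool.Agent.helper49.V

open Finset Pool.Agent.helper49.Pow

theorem exists_epsV {K : ℝ} (hK : 1 / Real.log (16 / 9) < K) :
    ∃ ε b : ℝ, 0 < ε ∧ ε ≤ 1 / 20000 ∧ 1 < b * lam ε ∧ (1 / 4 + 2 * ε) * b < K := by
  have h169 : Real.log (16 / 9) = 4 * Real.log 2 - 2 * Real.log 3 := by
    rw [Real.log_div (by norm_num) (by norm_num)]
    have e1 : Real.log 16 = 4 * Real.log 2 := by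
      rw [show (16 : ℝ) = 2 ^ 4 by norm_num, Real.log_pow]; norm_num
    have e2 : Real.log 9 = 2 * Real.log 3 := by
      rw [show (9 : ℝ) = 3 ^ 2 by norm_num, Real.log_pow]; norm_num
    rw [e1, e2]
  have hpos : 0 < Real.log (16 / 9) := Real.log_pos (by norm_num)
  have hK0 : 0 < K := lt_trans (by positivity) hK
  have hl3 : 0 < Real.log 3 := Real.log_pos (by norm_num)
  have h1 : 1 < K * Real.log (16 / 9) := (div_lt_iff₀ hpos).1 hK
  rw [h169] at h1
  set δ : ℝ := K * (Real.log 2 - 1 / 2 * Real.log 3) - 1 / 4 with hδ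
  have hδ0 : 0 < δ := by rw [hδ]; linarith
  set ε0 : ℝ := δ / (2 * (2 + K * Real.log 3)) with hε0
  have hden : 0 < 2 + K * Real.log 3 := by positivity
  have hε00 : 0 < ε0 := by positivity
  have hε01 : ε0 * (2 + K * Real.log 3) = δ / 2 := by
    rw [hε0]; field_simp
  set ε : ℝ := min ε0 (1 / 20000) with hε
  have hεpos : 0 < ε := lt_min hε00 (by norm_num)
  have hε1 : ε * (2 + K * Real.log 3) ≤ δ / 2 := by
    rw [← hε01]
    exact mul_le_mul_of_nonneg_right (min_le_left _ _) hden.le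
  have hlam : 1 / 4 + 2 * ε < K * lam ε := by
    have e1 : K * lam ε = K * (Real.log 2 - 1 / 2 * Real.log 3) - K * ε * Real.log 3 := by
      unfold lam; ring
    rw [e1]
    have e2 : 2 * ε + K * ε * Real.log 3 = ε * (2 + K * Real.log 3) := by ring
    linarith
  have hl0 : 0 < lam ε := by
    by_contra h
    push Not at h
    have : K * lam ε ≤ 0 := mul_nonpos_of_nonneg_of_nonpos hK0.le h
    linarith
  have hμ : 0 < 1 / 4 + 2 * ε := by linarith
  obtain ⟨b, hb1, hb2⟩ := exists_between (show 1 / lam ε < K / (1 / 4 + 2 * ε) by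
    rw [div_lt_div_iff₀ hl0 hμ]
    linarith)
  refine ⟨ε, b, hεpos, min_le_right _ _, (div_lt_iff₀ hl0).1 hb1, ?_⟩
  have := (lt_div_iff₀ hμ).1 hb2
  linarith

theorem finalV {C : ℝ} (hC : 0 < C) (hPB : PB C)
    (hbad : ∀ ε : ℝ, 0 < ε → ∃ q : ℝ, 0 < q ∧ q < 1 ∧ ∀ k : ℕ,
      ((BadV ε k).card : ℝ) ≤ 8 * (k + 1) * (2 * q) ^ k)
    {K : ℝ} (hK : 1 / Real.log (16 / 9) < K) :
    ∃ c C0 : ℝ, 0 < c ∧ 0 < C0 ∧ ∀ (X : ℕ) (Z : ℝ), 1 ≤ X → 0 < Z →
      ((EZ K X Z).card : ℝ) ≤ C0 * X * Z ^ (-c) := by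
  classical
  have hpos : 0 < Real.log (16 / 9) := Real.log_pos (by norm_num)
  have hK0 : 0 < K := lt_trans (by positivity) hK
  obtain ⟨ε, b, hε, hε2, hb, hbK⟩ := exists_epsV hK
  obtain ⟨q, hq, hq1, hB⟩ := hbad ε hε
  obtain ⟨D, q', hD0, hq0, hq1', hD⟩ := exists_D hC hq hq1
  have hl := lam_ge hε2 hε
  obtain ⟨Kmin, hmin⟩ := exists_Kmin hε (by linarith) hb
  set N : ℕ := max Kmin 20 with hN
  have hmin' : ∀ K : ℕ, N ≤ K → rho ε ^ K ≤ 1 / 4 ∧ 1 ≤ ε * K ∧
      (K : ℝ) ≤ b * (K * lam ε - Real.log 2) := fun K hK => hmin K ((le_max_left _ _).trans hK)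
  have hl2 : 0 < Real.log 2 := Real.log_pos (by norm_num)
  have hlq : Real.log q' < 0 := Real.log_neg hq0 hq1'
  have hb0 : 0 < b := by
    by_contra h
    push Not at h
    nlinarith
  set c1 : ℝ := - (Real.log q' / Real.log 2) with hc1
  have hc10 : 0 < c1 := by
    rw [hc1]
    have := div_neg_of_neg_of_pos hlq hl2
    linarith
  set c : ℝ := min c1 (1 / 2) with hc
  have hc0 : 0 < c := lt_min hc10 (by norm_num)
  set Z1 : ℝ := (2 : ℝ) ^ (N + 1) with hZ1
  have hZ10 : 0 < Z1 := by positivity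
  have hZ11 : 1 ≤ Z1 := one_le_pow₀ (by norm_num)
  set C0 : ℝ := 2 * Z1 ^ c + 2 * (D / q') + 4 with hC0
  have hC00 : 0 < C0 := by positivity
  refine ⟨c, C0, hc0, hC00, fun X Z hX hZ0 => ?_⟩
  have hX1 : (1 : ℝ) ≤ X := by exact_mod_cast hX
  have hX0 : (0 : ℝ) < X := by linarith
  have hZc : 0 < Z ^ (-c) := Real.rpow_pos_of_pos hZ0 _
  rcases lt_or_ge Z Z1 with hZl | hZl
  · -- small `Z`
    have h1 : ((EZ K X Z).card : ℝ) ≤ X + 1 := by
      have h2 : (EZ K X Z).card ≤ (range (X + 1)).card := by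
        unfold EZ
        exact card_filter_le _ _
      rw [card_range] at h2
      exact_mod_cast h2
    have h2 : Z1 ^ (-c) ≤ Z ^ (-c) :=
      Real.rpow_le_rpow_of_nonpos hZ0 hZl.le (by linarith)
    have h3 : 2 * Z1 ^ c * Z1 ^ (-c) = 2 := by
      rw [mul_assoc, ← Real.rpow_add hZ10, add_neg_cancel, Real.rpow_zero, mul_one]
    have h4 : (2 : ℝ) ≤ C0 * Z ^ (-c) := by
      calc (2 : ℝ) = 2 * Z1 ^ c * Z1 ^ (-c) := h3.symm
        _ ≤ 2 * Z1 ^ c * Z ^ (-c) := mul_le_mul_of_nonneg_left h2 (by positivity)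
        _ ≤ C0 * Z ^ (-c) := by
            apply mul_le_mul_of_nonneg_right _ hZc.le
            rw [hC0]
            have : 0 < D / q' := by positivity
            linarith
    have h5 : C0 * X * Z ^ (-c) = C0 * Z ^ (-c) * X := by ring
    rw [h5]
    nlinarith
  · rcases lt_or_ge ((X : ℝ) + 1) Z with hZX | hZX
    · -- large `Z`
      have h1 : EZ K X Z = ∅ := by
        unfold EZ
        rw [filter_eq_empty_iff]
        intro n hn h
        apply h
        refine ⟨0, ?_, fun i hi => absurd hi (Nat.not_lt_zero i), ?_, ?_⟩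
        · have h2 : (n : ℝ) < X + 1 := by exact_mod_cast mem_range.1 hn
          show (n : ℝ) < Z
          linarith
        · show ((0 : ℕ) : ℝ) ≤ _
          rw [CharP.cast_eq_zero]
          exact mul_nonneg hK0.le (Real.log_natCast_nonneg n)
        · rw [CharP.cast_eq_zero]
          exact mul_nonneg (by norm_num) (mul_nonneg hK0.le (Real.log_natCast_nonneg n))
      rw [h1, card_empty, CharP.cast_eq_zero]
      positivity
    · -- the main case
      obtain ⟨Y, hY2, hYX, hYZ, hZY, hNV⟩ := lastV (b := b) hC hPB hε hε2 hq hB hD0 hq0 hq1' hD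
        (le_max_right _ _) hmin' hZX hZl
      have hZ1' : 1 ≤ Z := hZ11.trans hZl
      have hY0 : 0 < Y := by linarith
      have hXp : (0 : ℝ) < X + 1 := by linarith
      have hsub : EZ K X Z ⊆ (range (X + 1)).filter (fun n => ¬ GdV b (1 / 4 + 2 * ε) X Y n) ∪
          range (⌊((X : ℝ) + 1) * Z ^ (-(1 / 2) : ℝ)⌋₊ + 1) := by
        intro n hn
        unfold EZ at hn
        rw [mem_filter] at hn
        rw [mem_union, mem_filter]
        by_cases hG : GdV b (1 / 4 + 2 * ε) X Y n
        · right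
          by_contra hlt
          rw [mem_range] at hlt
          apply hn.2
          obtain ⟨j, h1, h2, h3, h4, -⟩ := hG
          have h5 : ((X : ℝ) + 1) * Z ^ (-(1 / 2) : ℝ) ≤ n := by
            have e1 := Nat.lt_floor_add_one (((X : ℝ) + 1) * Z ^ (-(1 / 2) : ℝ))
            have e2 : ((⌊((X : ℝ) + 1) * Z ^ (-(1 / 2) : ℝ)⌋₊ + 1 : ℕ) : ℝ) ≤ n := by
              exact_mod_cast not_lt.1 hlt
            push_cast at e2
            linarith
          have h6 : Real.log (X + 1) - 1 / 2 * Real.log Z ≤ Real.log n := by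
            have e1 : Real.log (((X : ℝ) + 1) * Z ^ (-(1 / 2) : ℝ)) ≤ Real.log n :=
              Real.log_le_log (by positivity) h5
            rw [Real.log_mul hXp.ne' (by positivity), Real.log_rpow hZ0] at e1
            linarith
          have h7 : Real.log Z ≤ 2 * Real.log Y := by
            have e1 := Real.log_le_log hZ0 hZY
            rw [Real.log_pow] at e1
            push_cast at e1
            exact e1
          have h8 : Real.log (X + 1) - Real.log Y ≤ Real.log n := by linarith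
          have h9 : 0 ≤ Real.log (X + 1) - Real.log Y := by
            have := Real.log_le_log hY0 hYX
            linarith
          have h10 : 0 ≤ Real.log n := h9.trans h8
          have hbl : b * (Real.log (X + 1) - Real.log Y) ≤ b * Real.log n :=
            mul_le_mul_of_nonneg_left h8 hb0.le
          refine ⟨j, h1.trans hYZ, fun i hi => ?_, ?_, ?_⟩
          · have := h2 i hi
            have : (2 : ℝ) ≤ (T^[i] n : ℕ) := hY2.trans this
            exact_mod_cast this
          · calc (tr j n : ℝ) ≤ (1 / 4 + 2 * ε) * (b * (Real.log (X + 1) - Real.log Y)) := h4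
              _ ≤ (1 / 4 + 2 * ε) * (b * Real.log n) := mul_le_mul_of_nonneg_left hbl (by positivity)
              _ = (1 / 4 + 2 * ε) * b * Real.log n := by ring
              _ ≤ K * Real.log n := mul_le_mul_of_nonneg_right hbK.le h10
          · have e1 : b ≤ 4 * K := by nlinarith
            calc (j : ℝ) ≤ b * (Real.log (X + 1) - Real.log Y) := h3
              _ ≤ b * Real.log n := hbl
              _ ≤ 4 * K * Real.log n := mul_le_mul_of_nonneg_right e1 h10
              _ = _ := by ring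
        · exact Or.inl ⟨hn.1, hG⟩
      have h1 := (card_le_card hsub).trans (card_union_le _ _)
      rw [card_range] at h1
      have h2 : ((EZ K X Z).card : ℝ) ≤ NV b (1 / 4 + 2 * ε) X Y +
          (⌊((X : ℝ) + 1) * Z ^ (-(1 / 2) : ℝ)⌋₊ + 1) := by
        unfold NV
        exact_mod_cast h1
      have h3 : (⌊((X : ℝ) + 1) * Z ^ (-(1 / 2) : ℝ)⌋₊ : ℝ) ≤ ((X : ℝ) + 1) * Z ^ (-(1 / 2) : ℝ) :=
        Nat.floor_le (by positivity)
      -- comparison of the powers
      have h4 : Z ^ (-(1 / 2) : ℝ) ≤ Z ^ (-c) :=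
        Real.rpow_le_rpow_of_exponent_le hZ1' (by
          have := min_le_right c1 (1 / 2)
          linarith)
      have h5 : Z ^ (Real.log q' / Real.log 2) ≤ Z ^ (-c) :=
        Real.rpow_le_rpow_of_exponent_le hZ1' (by
          have := min_le_left c1 (1 / 2)
          linarith)
      have h6 : (1 : ℝ) ≤ ((X : ℝ) + 1) * Z ^ (-(1 / 2) : ℝ) := by
        have e1 : Z ^ (1 / 2 : ℝ) ≤ Z := by
          calc Z ^ (1 / 2 : ℝ) ≤ Z ^ (1 : ℝ) :=
                Real.rpow_le_rpow_of_exponent_le hZ1' (by norm_num)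
            _ = Z := Real.rpow_one Z
        have e2 : Z ^ (1 / 2 : ℝ) * Z ^ (-(1 / 2) : ℝ) = 1 := by
          rw [← Real.rpow_add hZ0]
          norm_num
        calc (1 : ℝ) = Z ^ (1 / 2 : ℝ) * Z ^ (-(1 / 2) : ℝ) := e2.symm
          _ ≤ ((X : ℝ) + 1) * Z ^ (-(1 / 2) : ℝ) :=
              mul_le_mul_of_nonneg_right (e1.trans hZX) (by positivity)
      have h7 : ((X : ℝ) + 1) * Z ^ (-(1 / 2) : ℝ) ≤ 2 * X * Z ^ (-c) := by
        calc ((X : ℝ) + 1) * Z ^ (-(1 / 2) : ℝ) ≤ (X + 1) * Z ^ (-c) :=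
              mul_le_mul_of_nonneg_left h4 hXp.le
          _ ≤ 2 * X * Z ^ (-c) := mul_le_mul_of_nonneg_right (by linarith) hZc.le
      have h8 : D / q' * (X + 1) * Z ^ (Real.log q' / Real.log 2) ≤ 2 * (D / q') * X * Z ^ (-c) := by
        calc D / q' * (X + 1) * Z ^ (Real.log q' / Real.log 2) ≤ D / q' * (X + 1) * Z ^ (-c) :=
              mul_le_mul_of_nonneg_left h5 (by positivity)
          _ ≤ D / q' * (2 * X) * Z ^ (-c) := by
              apply mul_le_mul_of_nonneg_right _ hZc.le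
              exact mul_le_mul_of_nonneg_left (by linarith) (by positivity)
          _ = _ := by ring
      have h9 : (2 * (D / q') + 4) * X * Z ^ (-c) ≤ C0 * X * Z ^ (-c) := by
        apply mul_le_mul_of_nonneg_right _ hZc.le
        apply mul_le_mul_of_nonneg_right _ hX0.le
        rw [hC0]
        have : 0 < Z1 ^ c := by positivity
        linarith
      have h10 : (2 * (D / q') + 4) * X * Z ^ (-c) = 2 * (D / q') * X * Z ^ (-c) +
          2 * (2 * X * Z ^ (-c)) := by ring
      linarith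

end Pool.Agent.helper49.V
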