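import Pool.Agent.helper49.V.Step

/-!
# All scales, with a geometric series
-/

namespace Pool.Agent.helper49.V

open Finset Pool.Agent.helper49.Pow

theorem sq_le_pow (K : ℕ) : K ^ 2 ≤ 4 * 2 ^ K := by
  induction K with
  | zero => norm_num
  | succ K ih =>
    rcases Nat.lt_or_ge K 3 with h | h
    · interval_cases K <;> norm_num
    · have h1 : (K + 1) ^ 2 ≤ 2 * K ^ 2 := by nlinarith
      calc (K + 1) ^ 2 ≤ 2 * K ^ 2 := h1
        _ ≤ 2 * (4 * 2 ^ K) := Nat.mul_le_mul_left 2 ih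
        _ = 4 * 2 ^ (K + 1) := by ring

theorem log_three_le : Real.log 3 ≤ 8 / 5 * Real.log 2 := by
  have h1 : Real.log ((3 : ℝ) ^ 5) ≤ Real.log (2 ^ 8) := Real.log_le_log (by norm_num) (by norm_num)
  rw [Real.log_pow, Real.log_pow] at h1
  push_cast at h1
  linarith

theorem lam_ge {ε : ℝ} (hε : ε ≤ 1 / 20000) (hε0 : 0 < ε) : 1 / 10 ≤ lam ε := by
  unfold lam
  have h1 := log_three_le
  have h2 := Real.log_two_gt_d9
  have h3 : (1 / 2 + ε) * Real.log 3 ≤ (1 / 2 + 1 / 20000) * (8 / 5 * Real.log 2) := by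
    apply mul_le_mul (by linarith) h1 (Real.log_nonneg (by norm_num)) (by norm_num)
  linarith

/-- A constant for the geometric series. -/
theorem exists_D {C q : ℝ} (hC : 0 < C) (hq : 0 < q) (hq1 : q < 1) :
    ∃ D q' : ℝ, 0 < D ∧ 0 < q' ∧ q' < 1 ∧
      ∀ K : ℕ, 8 * C * ((K : ℝ) + 1) ^ 3 * q ^ K ≤ D * q' ^ K * (1 - q') := by
  set q' : ℝ := (1 + q) / 2 with hq'
  have h0 : 0 < q' := by positivity
  have h1 : q' < 1 := by rw [hq']; linarith
  have h2 : q < q' := by rw [hq']; linarith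
  set r : ℝ := q / q' with hr
  have hr0 : 0 < r := by positivity
  have hr1 : r < 1 := (div_lt_one h0).2 h2
  have ht := tendsto_pow_const_mul_const_pow_of_abs_lt_one 3 (show |r| < 1 by
    rw [abs_of_pos hr0]; exact hr1)
  obtain ⟨B, hB⟩ := ht.bddAbove_range
  have hB' : ∀ K : ℕ, ((K : ℝ) + 1) ^ 3 * r ^ K ≤ B / r := by
    intro K
    have := hB ⟨K + 1, rfl⟩
    push_cast at this
    rw [le_div_iff₀ hr0]
    calc ((K : ℝ) + 1) ^ 3 * r ^ K * r = ((K : ℝ) + 1) ^ 3 * r ^ (K + 1) := by ring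
      _ ≤ B := this
  have hBr : 0 < B / r := by
    have := hB' 0
    norm_num at this
    linarith
  refine ⟨8 * C * (B / r) / (1 - q'), q', div_pos (by positivity) (by linarith), h0, h1, fun K => ?_⟩
  have h3 : (0 : ℝ) < 1 - q' := by linarith
  have h4 : 8 * C * (B / r) / (1 - q') * q' ^ K * (1 - q') = 8 * C * (B / r) * q' ^ K := by
    field_simp
  rw [h4]
  have h5 : q ^ K = r ^ K * q' ^ K := by
    rw [← mul_pow, hr, div_mul_cancel₀ _ h0.ne']
  rw [h5]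
  have h6 := mul_le_mul_of_nonneg_right (hB' K) (show 0 ≤ 8 * C * q' ^ K by positivity)
  calc 8 * C * ((K : ℝ) + 1) ^ 3 * (r ^ K * q' ^ K) =
        ((K : ℝ) + 1) ^ 3 * r ^ K * (8 * C * q' ^ K) := by ring
    _ ≤ B / r * (8 * C * q' ^ K) := h6
    _ = _ := by ring

theorem iterV {C ε b q q' D : ℝ} (hC : 0 < C) (hPB : PB C) (hε : 0 < ε) (hε2 : ε ≤ 1 / 20000)
    (hq : 0 < q)
    (hbad : ∀ k : ℕ, ((BadV ε k).card : ℝ) ≤ 8 * (k + 1) * (2 * q) ^ k)
    (hD0 : 0 < D) (hq0 : 0 < q') (hq1 : q' < 1)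
    (hD : ∀ K : ℕ, 8 * C * ((K : ℝ) + 1) ^ 3 * q ^ K ≤ D * q' ^ K * (1 - q'))
    {Kmin : ℕ} (hK20 : 20 ≤ Kmin) (hmin : ∀ K : ℕ, Kmin ≤ K → rho ε ^ K ≤ 1 / 4 ∧ 1 ≤ ε * K ∧
      (K : ℝ) ≤ b * (K * lam ε - Real.log 2)) {X : ℕ} {Z : ℝ} (hZX : Z ≤ X + 1)
    (hZK : (2 : ℝ) ^ (Kmin + 1) ≤ Z) (m : ℕ) :
    ∃ Y : ℝ, 2 ≤ Y ∧ Y ≤ X + 1 ∧
      ((Y < Z ∧ Z ≤ Y ^ 2 ∧ (NV b (1 / 4 + 2 * ε) X Y : ℝ) ≤
          (X + 1) * D * q' ^ (Nat.log 2 ⌊Z⌋₊)) ∨
        (Z ≤ Y ∧ Y ≤ (X + 1) / 2 ^ m ∧ (NV b (1 / 4 + 2 * ε) X Y : ℝ) ≤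
          (X + 1) * D * q' ^ (Nat.log 2 ⌊Y⌋₊ + 1))) := by
  classical
  have hl2 : 0 < Real.log 2 := Real.log_pos (by norm_num)
  have hl := lam_ge hε2 hε
  have hZ2 : 2 ≤ Z := by
    refine le_trans ?_ hZK
    rw [pow_succ]
    have : (1 : ℝ) ≤ 2 ^ Kmin := one_le_pow₀ (by norm_num)
    linarith
  have hZ0 : 0 < Z := by linarith
  have hX1 : (0 : ℝ) < X + 1 := by positivity
  induction m with
  | zero =>
    refine ⟨X + 1, by linarith, le_rfl, Or.inr ⟨hZX, by rw [pow_zero, div_one], ?_⟩⟩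
    have : NV b (1 / 4 + 2 * ε) X ((X : ℝ) + 1) = 0 := by
      unfold NV
      rw [card_eq_zero, filter_eq_empty_iff]
      intro n hn h
      apply h
      refine ⟨0, ?_, fun i hi => absurd hi (Nat.not_lt_zero i), ?_, ?_, ?_⟩
      · have : n < X + 1 := mem_range.1 hn
        show (n : ℝ) < X + 1
        exact_mod_cast this
      · simp
      · simp [tr]
      · intro i hi
        have hi0 : i = 0 := by omega
        subst hi0
        have h1 : (0 : ℝ) ≤ Real.log (X + 1) := Real.log_nonneg (by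
          have : (0 : ℝ) ≤ X := Nat.cast_nonneg X
          linarith)
        simp only [od, CharP.cast_eq_zero, zero_div, sub_zero, abs_zero, mul_zero, zero_add]
        positivity
    rw [this, CharP.cast_eq_zero]
    positivity
  | succ m ih =>
    obtain ⟨Y, hY2, hYX, hY⟩ := ih
    rcases hY with hY | ⟨hZY, hYm, hN⟩
    · exact ⟨Y, hY2, hYX, Or.inl hY⟩
    · -- the scale
      have hY0 : 0 < Y := by linarith
      set K : ℕ := Nat.log 2 ⌊Y⌋₊ with hK
      have hfl : ⌊Y⌋₊ ≠ 0 := by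
        have : 2 ≤ ⌊Y⌋₊ := Nat.le_floor (by exact_mod_cast hY2)
        omega
      have hY1 : (2 : ℝ) ^ K ≤ Y := by
        have h1 : 2 ^ K ≤ ⌊Y⌋₊ := Nat.pow_log_le_self 2 hfl
        have h2 : ((2 ^ K : ℕ) : ℝ) ≤ (⌊Y⌋₊ : ℝ) := by exact_mod_cast h1
        push_cast at h2
        exact h2.trans (Nat.floor_le hY0.le)
      have hY3 : Y < 2 ^ (K + 1) := by
        have h1 : ⌊Y⌋₊ < 2 ^ (K + 1) := Nat.lt_pow_succ_log_self (by norm_num) _
        have h2 : ((⌊Y⌋₊ + 1 : ℕ) : ℝ) ≤ ((2 ^ (K + 1) : ℕ) : ℝ) := by exact_mod_cast h1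
        push_cast at h2
        exact lt_of_lt_of_le (Nat.lt_floor_add_one Y) h2
      have hKmin : Kmin ≤ K := by
        by_contra h
        have h1 : K + 1 ≤ Kmin := by omega
        have h2 : (2 : ℝ) ^ (K + 1) ≤ 2 ^ (Kmin + 1) :=
          pow_le_pow_right₀ (by norm_num) (by omega)
        linarith
      have hK20' : (20 : ℝ) ≤ K := by exact_mod_cast hK20.trans hKmin
      obtain ⟨hr4, hεK, hKb⟩ := hmin K hKmin
      have hr0 := rho_pos ε
      have hrK : 0 < rho ε ^ K := by positivity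
      have hsq : Y ≤ (Y * rho ε ^ K) ^ 2 := by
        have h1 : (1 / 2 : ℝ) ^ K ≤ (rho ε ^ 2) ^ K := pow_le_pow_left₀ (by norm_num) (rho_sq hε) K
        have h2 : (1 : ℝ) ≤ Y * (1 / 2) ^ K := by
          rw [div_pow, one_pow, mul_one_div, le_div_iff₀ (by positivity)]
          linarith
        have h3 : (Y * rho ε ^ K) ^ 2 = Y * (Y * (rho ε ^ 2) ^ K) := by
          rw [mul_pow, ← pow_mul, ← pow_mul, mul_comm K 2]; ring
        rw [h3]
        have h4 : Y * (1 / 2) ^ K ≤ Y * (rho ε ^ 2) ^ K := mul_le_mul_of_nonneg_left h1 hY0.le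
        nlinarith
      have hYr0 : 0 < Y * rho ε ^ K := by positivity
      have hYr1 : 1 ≤ Y * rho ε ^ K := by
        have : (1 : ℝ) ^ 2 ≤ (Y * rho ε ^ K) ^ 2 := by linarith
        exact le_of_sq_le_sq this hYr0.le
      have hYrK : (K : ℝ) / 2 ≤ Y * rho ε ^ K := by
        have h1 : ((K : ℝ)) ^ 2 ≤ 4 * 2 ^ K := by exact_mod_cast sq_le_pow K
        have : ((K : ℝ) / 2) ^ 2 ≤ (Y * rho ε ^ K) ^ 2 := by nlinarith
        exact le_of_sq_le_sq this hYr0.le
      have hlogY : 0 ≤ Real.log Y := Real.log_nonneg (by linarith)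
      have hlogYK : (K : ℝ) * Real.log 2 ≤ Real.log Y := by
        rw [← Real.log_pow]
        exact Real.log_le_log (by positivity) hY1
      have hY'e : 2 * Y * rho ε ^ K = 2 * (Y * rho ε ^ K) := by ring
      have hlogY' : Real.log (2 * Y * rho ε ^ K) = Real.log Y - (K * lam ε - Real.log 2) := by
        rw [Real.log_mul (by positivity) (by positivity), Real.log_mul (by norm_num) hY0.ne',
          Real.log_pow, log_rho]
        ring
      have hhalf : Real.log Y ≤ 2 * Real.log (2 * Y * rho ε ^ K) := by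
        have h1 : Y ≤ (2 * Y * rho ε ^ K) ^ 2 := by
          rw [hY'e, mul_pow]
          linarith [sq_nonneg (Y * rho ε ^ K)]
        have h2 := Real.log_le_log hY0 h1
        rw [Real.log_pow] at h2
        push_cast at h2
        exact h2
      have e2lo := Real.log_two_gt_d9
      have e2hi := Real.log_two_lt_d9
      have g1 : 1 ≤ 2 * Y * rho ε ^ K := by rw [hY'e]; linarith
      have g2 : (K : ℝ) ≤ 2 * Y * rho ε ^ K := by rw [hY'e]; linarith
      have g3' : Y * rho ε ^ K ≤ Y * (1 / 4) := mul_le_mul_of_nonneg_left hr4 hY0.le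
      have g3 : 2 * Y * rho ε ^ K ≤ Y := by rw [hY'e]; linarith
      have g4 : (K : ℝ) ≤ b * (Real.log Y - Real.log (2 * Y * rho ε ^ K)) := by
        rw [hlogY']
        refine hKb.trans (le_of_eq ?_)
        ring
      have g5 : 2 * ε * K ≤ 1 / 800 * Real.log (2 * Y * rho ε ^ K) := by
        have h1 : (K : ℝ) * (6 / 10) ≤ 2 * Real.log (2 * Y * rho ε ^ K) := by nlinarith
        have h2 : 2 * ε * K ≤ 2 * (1 / 20000) * K := by nlinarith
        nlinarith
      have g6 : 1 / 800 * (Real.log Y - Real.log (2 * Y * rho ε ^ K)) + ε * K ≤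
          1 / 200 * ((Real.log Y - Real.log (2 * Y * rho ε ^ K)) / Real.log 2 - 1) := by
        rw [hlogY']
        set Δ : ℝ := K * lam ε - Real.log 2 with hΔ
        rw [show Real.log Y - (Real.log Y - Δ) = Δ by ring]
        have h1 : (K : ℝ) * (1 / 10) - 7 / 10 ≤ Δ := by
          rw [hΔ]
          nlinarith
        have h0 : 0 ≤ Δ := by nlinarith
        have h2 : Δ * (14 / 10) ≤ Δ / Real.log 2 := by
          rw [le_div_iff₀ hl2]
          nlinarith
        have h3 : ε * K ≤ 1 / 20000 * K := by nlinarith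
        nlinarith
      have hstep := stepV (b := b) hC hPB hε hq hbad (X := X) hY1 hY3 hYX hεK g1 g2 g3 g4 g5 g6
      have hN' : (NV b (1 / 4 + 2 * ε) X (2 * Y * rho ε ^ K) : ℝ) ≤ (X + 1) * D * q' ^ K := by
        have h1 := mul_le_mul_of_nonneg_right (hD K) hX1.le
        calc (NV b (1 / 4 + 2 * ε) X (2 * Y * rho ε ^ K) : ℝ) ≤ _ := hstep
          _ ≤ (X + 1) * D * q' ^ (K + 1) + D * q' ^ K * (1 - q') * (X + 1) := add_le_add hN h1
          _ = (X + 1) * D * q' ^ K := by ring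
      refine ⟨2 * Y * rho ε ^ K, by rw [hY'e]; linarith, by linarith, ?_⟩
      by_cases h : 2 * Y * rho ε ^ K < Z
      · left
        refine ⟨h, ?_, hN'.trans ?_⟩
        · rw [hY'e, mul_pow]
          linarith [sq_nonneg (Y * rho ε ^ K)]
        · have h1 : Nat.log 2 ⌊Z⌋₊ ≤ K := Nat.log_mono_right (Nat.floor_le_floor hZY)
          exact mul_le_mul_of_nonneg_left (pow_le_pow_of_le_one hq0.le hq1.le h1) (by positivity)
      · right
        refine ⟨not_lt.1 h, ?_, hN'.trans ?_⟩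
        · rw [pow_succ, ← div_div]
          have h1 : 2 * Y * rho ε ^ K ≤ Y / 2 := by rw [hY'e]; linarith
          linarith
        · have h1 : Nat.log 2 ⌊2 * Y * rho ε ^ K⌋₊ + 1 ≤ K := by
            have h2 : ⌊2 * Y * rho ε ^ K⌋₊ < 2 ^ K := by
              rw [Nat.floor_lt (by positivity)]
              push_cast
              rw [hY'e]
              have h3 : Y < 2 * 2 ^ K := by rw [← pow_succ']; exact hY3
              linarith
            have h4 : ⌊2 * Y * rho ε ^ K⌋₊ ≠ 0 := by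
              have : 1 ≤ ⌊2 * Y * rho ε ^ K⌋₊ := Nat.le_floor (by exact_mod_cast g1)
              omega
            have h5 := (Nat.log_lt_iff_lt_pow (by norm_num) h4).2 h2
            omega
          exact mul_le_mul_of_nonneg_left (pow_le_pow_of_le_one hq0.le hq1.le h1) (by positivity)

/-- The last scale. -/
theorem lastV {C ε b q q' D : ℝ} (hC : 0 < C) (hPB : PB C) (hε : 0 < ε) (hε2 : ε ≤ 1 / 20000)
    (hq : 0 < q)
    (hbad : ∀ k : ℕ, ((BadV ε k).card : ℝ) ≤ 8 * (k + 1) * (2 * q) ^ k)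
    (hD0 : 0 < D) (hq0 : 0 < q') (hq1 : q' < 1)
    (hD : ∀ K : ℕ, 8 * C * ((K : ℝ) + 1) ^ 3 * q ^ K ≤ D * q' ^ K * (1 - q'))
    {Kmin : ℕ} (hK20 : 20 ≤ Kmin) (hmin : ∀ K : ℕ, Kmin ≤ K → rho ε ^ K ≤ 1 / 4 ∧ 1 ≤ ε * K ∧
      (K : ℝ) ≤ b * (K * lam ε - Real.log 2)) {X : ℕ} {Z : ℝ} (hZX : Z ≤ X + 1)
    (hZK : (2 : ℝ) ^ (Kmin + 1) ≤ Z) :
    ∃ Y : ℝ, 2 ≤ Y ∧ Y ≤ X + 1 ∧ Y < Z ∧ Z ≤ Y ^ 2 ∧ (NV b (1 / 4 + 2 * ε) X Y : ℝ) ≤
      D / q' * (X + 1) * Z ^ (Real.log q' / Real.log 2) := by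
  have hl2 : 0 < Real.log 2 := Real.log_pos (by norm_num)
  have hX1 : (0 : ℝ) < X + 1 := by positivity
  have hZ0 : 0 < Z := lt_of_lt_of_le (by positivity) hZK
  obtain ⟨m, hm⟩ := pow_unbounded_of_one_lt (((X : ℝ) + 1) / Z) (by norm_num : (1 : ℝ) < 2)
  obtain ⟨Y, h1, h2, h3⟩ := iterV (b := b) hC hPB hε hε2 hq hbad hD0 hq0 hq1 hD hK20 hmin hZX hZK m
  rcases h3 with ⟨h3, h4, h5⟩ | ⟨h3, h4, -⟩
  · refine ⟨Y, h1, h2, h3, h4, h5.trans ?_⟩
    set K : ℕ := Nat.log 2 ⌊Z⌋₊ with hK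
    have hZK1 : Z < 2 ^ (K + 1) := by
      have e1 : ⌊Z⌋₊ < 2 ^ (K + 1) := Nat.lt_pow_succ_log_self (by norm_num) _
      have e2 : ((⌊Z⌋₊ + 1 : ℕ) : ℝ) ≤ ((2 ^ (K + 1) : ℕ) : ℝ) := by exact_mod_cast e1
      push_cast at e2
      exact lt_of_lt_of_le (Nat.lt_floor_add_one Z) e2
    have hqK : q' ^ K ≤ 1 / q' * Z ^ (Real.log q' / Real.log 2) := by
      have hlq : Real.log q' < 0 := Real.log_neg hq0 hq1
      have e1 : Real.log Z ≤ (K + 1) * Real.log 2 := by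
        have e2 : Real.log Z ≤ Real.log (2 ^ (K + 1)) := Real.log_le_log hZ0 hZK1.le
        rw [Real.log_pow] at e2
        push_cast at e2
        exact e2
      rw [← Real.log_le_log_iff (by positivity) (by positivity), Real.log_mul (by positivity) (by positivity),
        Real.log_pow, Real.log_rpow hZ0, one_div, Real.log_inv]
      have e3 : Real.log q' / Real.log 2 * Real.log Z = Real.log q' * (Real.log Z / Real.log 2) := by
        ring
      rw [e3]
      have e4 : Real.log Z / Real.log 2 ≤ K + 1 := (div_le_iff₀ hl2).2 e1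
      have e5 := mul_le_mul_of_nonpos_left e4 hlq.le
      linarith
    calc ((X : ℝ) + 1) * D * q' ^ K ≤ (X + 1) * D * (1 / q' * Z ^ (Real.log q' / Real.log 2)) :=
          mul_le_mul_of_nonneg_left hqK (by positivity)
      _ = _ := by ring
  · exfalso
    have e1 : Z ≤ (X + 1) / 2 ^ m := h3.trans h4
    rw [le_div_iff₀ (by positivity)] at e1
    rw [div_lt_iff₀ hZ0] at hm
    linarith

end Pool.Agent.helper49.V
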