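import Pool.Agent.helper49.V.Defs

/-!
# From one scale to the next, without loss
-/

namespace Pool.Agent.helper49.V

open Finset Pool.Agent.helper49.Pow

theorem le_pow_iter (l : ℕ) : ∀ n : ℕ, n ≤ 2 ^ l * T^[l] n := by
  induction l with
  | zero => intro n; simp
  | succ l ih =>
    intro n
    rw [Function.iterate_succ_apply, pow_succ]
    calc n ≤ 2 * T n := le_two_T n
      _ ≤ 2 * (2 ^ l * T^[l] (T n)) := Nat.mul_le_mul_left 2 (ih (T n))
      _ = _ := by ring

/-- The final pieces of the path after one more block. -/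
theorem suffix_dev {ε : ℝ} {K j l n : ℕ} {Y Y' : ℝ} (hlK : l ≤ K)
    (hz : ∀ i ≤ K, |(od i (T^[j] n) : ℝ) - i / 2| ≤ ε * K)
    (hd : ∀ i ≤ j, |(od i (T^[j - i] n) : ℝ) - i / 2| ≤ 1 / 200 * i + 1 / 800 * Real.log Y)
    (h1 : 2 * ε * K ≤ 1 / 800 * Real.log Y')
    (h2 : 1 ≤ j → 1 / 800 * (Real.log Y - Real.log Y') + ε * K ≤ 1 / 200 * l) :
    ∀ i ≤ j + l, |(od i (T^[j + l - i] n) : ℝ) - i / 2| ≤ 1 / 200 * i + 1 / 800 * Real.log Y' := by
  intro i hi
  by_cases hil : i ≤ l
  · have e1 : T^[j + l - i] n = T^[l - i] (T^[j] n) := by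
      rw [← Function.iterate_add_apply, show l - i + j = j + l - i by omega]
    have e2 := od_add (l - i) i (T^[j] n)
    rw [show l - i + i = l by omega] at e2
    rw [e1]
    have a1 := hz l hlK
    have a2 := hz (l - i) (by omega)
    have e3 : (od l (T^[j] n) : ℝ) = od (l - i) (T^[j] n) + od i (T^[l - i] (T^[j] n)) := by
      exact_mod_cast e2
    have e4 : ((l - i : ℕ) : ℝ) = l - i := by
      rw [Nat.cast_sub hil]
    rw [e4] at a2
    have hi0 : (0 : ℝ) ≤ i := Nat.cast_nonneg i
    rw [abs_le] at a1 a2 ⊢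
    constructor <;> nlinarith [a1.1, a1.2, a2.1, a2.2]
  · have hj1 : 1 ≤ j := by omega
    have h3 := h2 hj1
    have e1 : T^[j + l - i] n = T^[j - (i - l)] n := by
      rw [show j + l - i = j - (i - l) by omega]
    have e2 := od_add (i - l) l (T^[j - (i - l)] n)
    rw [show i - l + l = i by omega] at e2
    have e3 : T^[i - l] (T^[j - (i - l)] n) = T^[j] n := by
      rw [← Function.iterate_add_apply, show i - l + (j - (i - l)) = j by omega]
    rw [e3] at e2
    rw [e1]
    have a1 := hz l hlK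
    have a2 := hd (i - l) (by omega)
    have e4 : ((i - l : ℕ) : ℝ) = i - l := by
      rw [Nat.cast_sub (by omega)]
    rw [e4] at a2
    have e5 : (od i (T^[j - (i - l)] n) : ℝ) = od (i - l) (T^[j - (i - l)] n) + od l (T^[j] n) := by
      exact_mod_cast e2
    rw [abs_le] at a1 a2 ⊢
    constructor <;> nlinarith [a1.1, a1.2, a2.1, a2.2]

theorem stepV {C ε b q : ℝ} (hC : 0 < C) (hPB : PB C) (hε : 0 < ε) (hq : 0 < q)
    (hbad : ∀ k : ℕ, ((BadV ε k).card : ℝ) ≤ 8 * (k + 1) * (2 * q) ^ k) {X K : ℕ} {Y : ℝ}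
    (hY1 : (2 : ℝ) ^ K ≤ Y) (hY2 : Y < 2 ^ (K + 1)) (hYX : Y ≤ X + 1) (hεK : 1 ≤ ε * K)
    (h1 : 1 ≤ 2 * Y * rho ε ^ K) (hK : (K : ℝ) ≤ 2 * Y * rho ε ^ K)
    (hle : 2 * Y * rho ε ^ K ≤ Y)
    (hb : (K : ℝ) ≤ b * (Real.log Y - Real.log (2 * Y * rho ε ^ K)))
    (hs : 2 * ε * K ≤ 1 / 800 * Real.log (2 * Y * rho ε ^ K))
    (hd : 1 / 800 * (Real.log Y - Real.log (2 * Y * rho ε ^ K)) + ε * K ≤
      1 / 200 * ((Real.log Y - Real.log (2 * Y * rho ε ^ K)) / Real.log 2 - 1)) :
    (NV b (1 / 4 + 2 * ε) X (2 * Y * rho ε ^ K) : ℝ) ≤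
      NV b (1 / 4 + 2 * ε) X Y + 8 * C * (K + 1) ^ 3 * q ^ K * (X + 1) := by
  classical
  set Y' := 2 * Y * rho ε ^ K with hY'
  have hY'0 : 0 < Y' := by linarith
  have hY0 : 0 < Y := by linarith
  have hY1' : 1 ≤ Y := le_trans (one_le_pow₀ (by norm_num)) hY1
  have hl2 : 0 < Real.log 2 := Real.log_pos (by norm_num)
  have hX0 : (0 : ℝ) ≤ X := Nat.cast_nonneg X
  have hlogY : Real.log Y ≤ (K + 1) * Real.log 2 := by
    have := Real.log_le_log hY0 hY2.le
    rw [Real.log_pow] at this
    push_cast at this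
    exact this
  have hlogY' : Real.log Y < K + 1 := by
    have e1 := Real.log_two_lt_d9
    have e2 : (0 : ℝ) ≤ K := Nat.cast_nonneg K
    nlinarith
  have hlogY0 : 0 ≤ Real.log Y := Real.log_nonneg hY1'
  -- the covering
  set P : ℕ → ℕ → Prop := fun z n => (z : ℝ) ≤ Y ∧ ∃ j : ℕ, T^[j] n = z ∧
    (∀ i < j, Y ≤ ((T^[i] n : ℕ) : ℝ)) ∧
    (∀ i, K + 1 ≤ i → i ≤ j → 49 * i ≤ 100 * od i (T^[j - i] n) ∧
      100 * od i (T^[j - i] n) ≤ 51 * i) with hP
  have hsub : (range (X + 1)).filter (fun n => ¬ GdV b (1 / 4 + 2 * ε) X Y' n) ⊆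
      (range (X + 1)).filter (fun n => ¬ GdV b (1 / 4 + 2 * ε) X Y n) ∪
      (BadV ε K).biUnion (fun z => (range (X + 1)).filter (fun n => P z n)) := by
    intro n hn
    rw [mem_filter] at hn
    rw [mem_union, mem_filter, mem_biUnion]
    by_cases hG : GdV b (1 / 4 + 2 * ε) X Y n
    · right
      obtain ⟨j, hj1, hj2, hj3, hj4, hj5⟩ := hG
      set z := T^[j] n with hz
      by_cases hzb : z ∈ BadV ε K
      · refine ⟨z, hzb, ?_⟩
        rw [mem_filter]
        refine ⟨hn.1, hj1.le, j, hz.symm, hj2, fun i hi hij => ?_⟩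
        have e1 := hj5 i hij
        have e2 : (K : ℝ) + 1 ≤ i := by exact_mod_cast hi
        rw [abs_le] at e1
        have e3 : (49 : ℝ) * i ≤ 100 * od i (T^[j - i] n) := by nlinarith [e1.1, e1.2]
        have e4 : (100 : ℝ) * od i (T^[j - i] n) ≤ 51 * i := by nlinarith [e1.1, e1.2]
        exact ⟨by exact_mod_cast e3, by exact_mod_cast e4⟩
      · exfalso
        have hzr : z ∈ range (2 ^ (K + 1)) := by
          rw [mem_range]
          have : (z : ℝ) < 2 ^ (K + 1) := lt_trans hj1 hY2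
          exact_mod_cast this
        have hz2 : ¬ ((∃ l ≤ K, (l : ℝ) / 2 + ε * K < od l z ∨ (od l z : ℝ) < (l : ℝ) / 2 - ε * K) ∨
            (1 / 4 + ε) * K < trw (word K z)) := by
          intro h
          apply hzb
          unfold BadV
          rw [mem_filter]
          exact ⟨hzr, h⟩
        push Not at hz2
        obtain ⟨hz3, hz4⟩ := hz2
        have hz5 : ∀ i ≤ K, |(od i z : ℝ) - i / 2| ≤ ε * K := by
          intro i hi
          obtain ⟨a1, a2⟩ := hz3 i hi
          rw [abs_le]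
          constructor <;> linarith
        have hz6 : (od K z : ℝ) ≤ (1 / 2 + ε) * K := by
          have := (hz3 K le_rfl).1
          linarith
        obtain ⟨i, hi1, hi2, hi3⟩ := stage hj1 hz6 h1 hK le_rfl
        apply hn.2
        refine ⟨j + i, ?_, fun l hl => ?_, ?_, ?_, ?_⟩
        · rw [add_comm j i, Function.iterate_add_apply]
          exact hi2
        · by_cases hlj : l < j
          · exact hle.trans (hj2 l hlj)
          · have e1 : l = (l - j) + j := by omega
            rw [e1, Function.iterate_add_apply]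
            exact hi3 (l - j) (by omega)
        · push_cast
          have e1 : (i : ℝ) ≤ K := by exact_mod_cast hi1
          linarith
        · rw [tr_add]
          push_cast
          have e1 : tr i (T^[j] n) ≤ trw (word K z) + 1 :=
            (tr_mono hi1).trans (tr_le_trw K z)
          have e2 : (tr i (T^[j] n) : ℝ) ≤ trw (word K z) + 1 := by exact_mod_cast e1
          have e3 : (tr i (T^[j] n) : ℝ) ≤ (1 / 4 + 2 * ε) * K := by
            nlinarith
          have e4 : (1 / 4 + 2 * ε) * K ≤ (1 / 4 + 2 * ε) * (b * (Real.log Y - Real.log Y')) :=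
            mul_le_mul_of_nonneg_left hb (by linarith)
          have e5 : (1 / 4 + 2 * ε) * (b * (Real.log (X + 1) - Real.log Y)) +
              (1 / 4 + 2 * ε) * (b * (Real.log Y - Real.log Y')) =
              (1 / 4 + 2 * ε) * (b * (Real.log (X + 1) - Real.log Y')) := by ring
          linarith
        · refine suffix_dev hi1 hz5 hj5 hs fun hj0 => ?_
          -- the length of the block
          have e1 : Y ≤ 2 * z := by
            have a1 := hj2 (j - 1) (by omega)
            have a2 : z = T (T^[j - 1] n) := by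
              rw [hz, ← Function.iterate_succ_apply' T (j - 1) n]
              congr 2
              omega
            have a3 := le_two_T (T^[j - 1] n)
            rw [← a2] at a3
            have a4 : ((T^[j - 1] n : ℕ) : ℝ) ≤ 2 * (z : ℝ) := by exact_mod_cast a3
            linarith
          have e2 : (z : ℝ) ≤ 2 ^ i * (T^[i] z : ℕ) := by exact_mod_cast le_pow_iter i z
          have e3 : Y ≤ 2 ^ (i + 1) * Y' := by
            have a5 : (2 : ℝ) ^ i * (T^[i] z : ℕ) ≤ 2 ^ i * Y' :=
              mul_le_mul_of_nonneg_left hi2.le (by positivity)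
            rw [pow_succ]
            linarith
          have e4 : Real.log Y ≤ (i + 1) * Real.log 2 + Real.log Y' := by
            have a6 := Real.log_le_log hY0 e3
            rw [Real.log_mul (by positivity) hY'0.ne', Real.log_pow] at a6
            push_cast at a6
            exact a6
          have e5 : (Real.log Y - Real.log Y') / Real.log 2 - 1 ≤ i := by
            rw [sub_le_iff_le_add, div_le_iff₀ hl2]
            linarith
          have e6 := mul_le_mul_of_nonneg_left e5 (show (0 : ℝ) ≤ 1 / 200 by norm_num)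
          linarith
    · left
      exact ⟨hn.1, hG⟩
  -- the count
  have hz1 : ∀ z ∈ BadV ε K, (((range (X + 1)).filter (fun n => P z n)).card : ℝ) ≤
        C * ((K + 1 : ℕ) : ℝ) ^ 2 * (X + 1) / Y := by
    intro z hz
    by_cases hzY : (z : ℝ) ≤ Y
    · refine hPB X z (K + 1) Y _ (by omega) hY1' hYX hzY fun n hn => ?_
      rw [mem_filter, mem_range] at hn
      exact ⟨hn.1, hn.2.2⟩
    · have : (range (X + 1)).filter (fun n => P z n) = ∅ := by
        rw [filter_eq_empty_iff]
        exact fun n _ h => hzY h.1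
      rw [this, card_empty]
      push_cast
      positivity
  have h2 : (NV b (1 / 4 + 2 * ε) X Y' : ℝ) ≤ NV b (1 / 4 + 2 * ε) X Y +
      (BadV ε K).card * (C * ((K + 1 : ℕ) : ℝ) ^ 2 * (X + 1) / Y) := by
    have e1 := (card_le_card hsub).trans (card_union_le _ _)
    have e2 : (NV b (1 / 4 + 2 * ε) X Y' : ℝ) ≤ NV b (1 / 4 + 2 * ε) X Y +
        ((BadV ε K).biUnion (fun z => (range (X + 1)).filter (fun n => P z n))).card := by
      unfold NV
      exact_mod_cast e1
    have e3 : (((BadV ε K).biUnion (fun z => (range (X + 1)).filter (fun n => P z n))).card : ℝ) ≤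
        ∑ z ∈ BadV ε K, (((range (X + 1)).filter (fun n => P z n)).card : ℝ) := by
      exact_mod_cast card_biUnion_le
    have e4 := sum_le_card_nsmul _ _ _ hz1
    rw [nsmul_eq_mul] at e4
    linarith
  refine h2.trans ?_
  have h3 := hbad K
  have hpos : (0 : ℝ) ≤ C * ((K + 1 : ℕ) : ℝ) ^ 2 * (X + 1) / Y := by positivity
  have h4 := mul_le_mul_of_nonneg_right h3 hpos
  have h5 : 8 * ((K : ℝ) + 1) * (2 * q) ^ K * (C * ((K + 1 : ℕ) : ℝ) ^ 2 * (X + 1) / Y) ≤
      8 * C * (K + 1) ^ 3 * q ^ K * (X + 1) := by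
    have e1 : 8 * ((K : ℝ) + 1) * (2 * q) ^ K * (C * ((K + 1 : ℕ) : ℝ) ^ 2 * (X + 1) / Y) =
        8 * C * (K + 1) ^ 3 * q ^ K * (X + 1) * (2 ^ K / Y) := by
      rw [mul_pow]
      push_cast
      field_simp
    rw [e1]
    have e2 : (2 : ℝ) ^ K / Y ≤ 1 := by rwa [div_le_one hY0]
    have e3 : (0 : ℝ) ≤ 8 * C * (K + 1) ^ 3 * q ^ K * (X + 1) := by positivity
    exact mul_le_of_le_one_right e3 e2
  linarith

end Pool.Agent.helper49.V
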